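import Pool.Agent.W712.RP.Stm

set_option autoImplicit false

open MeasureTheory Set Filter Topology
open scoped ENNReal Pointwise

namespace Pool.Agent.W356.RP

open Pool.Agent.W712.RP

theorem body_compl_nonempty {k : ℕ} (hk : 1 ≤ k) {K : Set (EuclideanSpace ℝ (Fin k))}
    (hK : Body K) : (Kᶜ).Nonempty := by
  have : Nonempty (Fin k) := ⟨⟨0, hk⟩⟩
  by_contra h
  rw [Set.not_nonempty_iff_eq_empty, Set.compl_empty_iff] at h
  have := hK.compact
  rw [h] at this
  exact noncompact_univ (EuclideanSpace ℝ (Fin k)) this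

theorem dep_ge {k : ℕ} (hk : 1 ≤ k) {K : Set (EuclideanSpace ℝ (Fin k))}
    (hK : Body K) (hB : Metric.closedBall 0 1 ⊆ K) {t : ℝ} (ht0 : 0 ≤ t) (ht1 : t ≤ 1)
    {x : EuclideanSpace ℝ (Fin k)} (hx : x ∈ K) : t ≤ dep K ((1 - t) • x) := by
  unfold dep
  rw [Metric.le_infDist (body_compl_nonempty hk hK)]
  intro y hy
  by_contra hlt
  push Not at hlt
  apply hy
  have htpos : 0 < t := lt_of_le_of_lt dist_nonneg hlt
  have hw : (t⁻¹ • (y - (1 - t) • x)) ∈ K := by
    apply hB
    rw [mem_closedBall_zero_iff, norm_smul, Real.norm_eq_abs, abs_of_pos (inv_pos.mpr htpos)]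
    rw [dist_comm, dist_eq_norm] at hlt
    rw [inv_mul_le_iff₀ htpos, mul_one]
    exact hlt.le
  have := hK.convex hx hw (by linarith : 0 ≤ 1 - t) ht0 (by ring)
  rw [smul_smul, mul_inv_cancel₀ htpos.ne', one_smul] at this
  simpa using this

theorem zero_mem_of {k : ℕ} {K : Set (EuclideanSpace ℝ (Fin k))}
    (hB : Metric.closedBall 0 1 ⊆ K) : (0 : EuclideanSpace ℝ (Fin k)) ∈ K :=
  hB (by simp)

theorem u4 : S_U4 := by
  intro k hk K hK hB t ht0
  have hfin : volume K ≠ ⊤ := hK.compact.measure_ne_top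
  have hV0 : 0 ≤ (volume K).toReal := ENNReal.toReal_nonneg
  have hk1 : (1 : ℝ) ≤ k := by exact_mod_cast hk
  by_cases ht1 : t ≤ 1
  · have hsub : {z | z ∈ K ∧ dep K z < t} ⊆ K \ ((1 - t) • K) := by
      rintro z ⟨hz, hzt⟩
      refine ⟨hz, ?_⟩
      rintro ⟨x, hx, rfl⟩
      exact absurd (dep_ge hk hK hB ht0 ht1 hx) (not_le.mpr hzt)
    have hsub2 : ((1 - t) • K) ⊆ K := by
      rintro z ⟨x, hx, rfl⟩
      have := hK.convex hx (zero_mem_of hB) (by linarith : 0 ≤ 1 - t) ht0 (by ring)
      simpa using this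
    have hcomp : IsCompact ((1 - t) • K) := hK.compact.smul (1 - t)
    have hvol : volume ((1 - t) • K) = ENNReal.ofReal ((1 - t) ^ k) * volume K := by
      rw [Measure.addHaar_smul]
      simp only [finrank_euclideanSpace, Fintype.card_fin]
      rw [abs_of_nonneg (pow_nonneg (by linarith) _)]
    have hdiff : volume (K \ ((1 - t) • K)) = volume K - volume ((1 - t) • K) :=
      measure_sdiff hsub2 hcomp.measurableSet.nullMeasurableSet
        (hcomp.measure_ne_top)
    have h1 : (volume {z | z ∈ K ∧ dep K z < t}).toReal ≤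
        (volume (K \ ((1 - t) • K))).toReal := by
      apply ENNReal.toReal_mono
      · exact ne_top_of_le_ne_top hfin (measure_mono Set.sdiff_subset)
      · exact measure_mono hsub
    have h2 : (volume (K \ ((1 - t) • K))).toReal =
        (volume K).toReal - (1 - t) ^ k * (volume K).toReal := by
      rw [hdiff, ENNReal.toReal_sub_of_le (measure_mono hsub2) hfin, hvol, ENNReal.toReal_mul,
        ENNReal.toReal_ofReal (pow_nonneg (by linarith) _)]
    have h3 : 1 + (k : ℝ) * (-t) ≤ (1 + (-t)) ^ k := one_add_mul_le_pow (by linarith) k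
    have h4 : 1 - (1 - t) ^ k ≤ k * t := by
      have : (1 + (-t)) = 1 - t := by ring
      rw [this] at h3
      linarith
    calc (volume {z | z ∈ K ∧ dep K z < t}).toReal ≤ _ := h1
      _ = (1 - (1 - t) ^ k) * (volume K).toReal := by rw [h2]; ring
      _ ≤ (k * t) * (volume K).toReal := mul_le_mul_of_nonneg_right h4 hV0
  · push Not at ht1
    have h1 : (volume {z | z ∈ K ∧ dep K z < t}).toReal ≤ (volume K).toReal :=
      ENNReal.toReal_mono hfin (measure_mono (fun z hz => hz.1))
    have h2 : 1 ≤ (k : ℝ) * t := by nlinarith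
    nlinarith

end Pool.Agent.W356.RP
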