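import Pool.Agent.W712.RP.Stm

set_option autoImplicit false

open MeasureTheory Set Filter Topology
open scoped ENNReal Pointwise

namespace Pool.Agent.W356.RP

open Pool.Agent.W712.RP

theorem continuous_dep {k : ℕ} (K : Set (EuclideanSpace ℝ (Fin k))) : Continuous (dep K) :=
  Metric.continuous_infDist_pt _

theorem layer_vol {k : ℕ} {K : Set (EuclideanSpace ℝ (Fin k))} (hK : Body K) {t : ℝ} :
    (volume {z | z ∈ K ∧ dep K z < t}).toReal = inV K 0 - inV K t := by
  have hfin : volume K ≠ ⊤ := hK.compact.measure_ne_top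
  have h0 : {z | z ∈ K ∧ (0 : ℝ) ≤ dep K z} = K := by
    ext z
    constructor
    · rintro ⟨h, _⟩; exact h
    · intro h; exact ⟨h, Metric.infDist_nonneg⟩
  have hcl : IsClosed {z | z ∈ K ∧ t ≤ dep K z} :=
    hK.compact.isClosed.inter (isClosed_le continuous_const (continuous_dep K))
  have hsub : {z | z ∈ K ∧ t ≤ dep K z} ⊆ K := fun z hz => hz.1
  have hD : {z | z ∈ K ∧ dep K z < t} = K \ {z | z ∈ K ∧ t ≤ dep K z} := by
    ext z
    constructor
    · rintro ⟨h, h1⟩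
      refine ⟨h, ?_⟩
      rintro ⟨_, h2⟩
      exact absurd h1 (not_lt.mpr h2)
    · rintro ⟨h, h1⟩
      refine ⟨h, ?_⟩
      by_contra h2
      push Not at h2
      exact h1 ⟨h, h2⟩
  unfold inV
  rw [h0, hD, measure_sdiff hsub hcl.measurableSet.nullMeasurableSet
    (ne_top_of_le_ne_top hfin (measure_mono hsub)),
    ENNReal.toReal_sub_of_le (measure_mono hsub) hfin]

theorem u5 : S_U2 → S_U3 → S_U4 → S_U5 := by
  intro hU2 hU3 hU4 k hk K hK hB s t hs ht hst
  obtain ⟨hcl, h3⟩ := hU3 k hk K hK s t hs ht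
  have h2 := hU2 k hk K hK hB s t hs.le ht.le hst
  have h4 := hU4 k hk K hK hB t ht.le
  have hfin : volume K ≠ ⊤ := hK.compact.measure_ne_top
  have hV0 : 0 ≤ (volume K).toReal := ENNReal.toReal_nonneg
  have hk1 : (1 : ℝ) ≤ k := by exact_mod_cast hk
  have hGsub : {z | z ∈ Good K s ∧ dep K z < t} ⊆ {z | z ∈ K ∧ dep K z < t} :=
    fun z hz => ⟨hz.1.1, hz.2⟩
  have hGm : MeasurableSet {z | z ∈ Good K s ∧ dep K z < t} :=
    hcl.measurableSet.inter (isOpen_lt (continuous_dep K) continuous_const).measurableSet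
  have hDfin : volume {z | z ∈ K ∧ dep K z < t} ≠ ⊤ :=
    ne_top_of_le_ne_top hfin (measure_mono fun z hz => hz.1)
  have hEq : {z | z ∈ K ∧ dep K z < t ∧ z ∉ Good K s} =
      {z | z ∈ K ∧ dep K z < t} \ {z | z ∈ Good K s ∧ dep K z < t} := by
    ext z
    constructor
    · rintro ⟨ha, hb, hc⟩
      exact ⟨⟨ha, hb⟩, fun h => hc h.1⟩
    · rintro ⟨⟨ha, hb⟩, hc⟩
      exact ⟨ha, hb, fun h => hc ⟨h, hb⟩⟩
  rw [hEq, measure_sdiff hGsub hGm.nullMeasurableSet
    (ne_top_of_le_ne_top hDfin (measure_mono hGsub)),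
    ENNReal.toReal_sub_of_le (measure_mono hGsub) hDfin]
  have hD := layer_vol hK (t := t)
  set D := (volume {z | z ∈ K ∧ dep K z < t}).toReal with hDdef
  set G := (volume {z | z ∈ Good K s ∧ dep K z < t}).toReal with hGdef
  rw [← hD] at h2
  have hD0 : 0 ≤ D := ENNReal.toReal_nonneg
  have hb : 1 + ((k - 1 : ℕ) : ℝ) * (-(s + t)) ≤ (1 + (-(s + t))) ^ (k - 1) :=
    one_add_mul_le_pow (by linarith) (k - 1)
  have hc : ((k - 1 : ℕ) : ℝ) = (k : ℝ) - 1 := by
    rw [Nat.cast_sub hk]; simp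
  rw [hc] at hb
  have hsimp : (1 + (-(s + t))) = 1 - (s + t) := by ring
  rw [hsimp] at hb
  have h5 : (1 + ((k : ℝ) - 1) * (-(s + t))) * D ≤ (1 - (s + t)) ^ (k - 1) * D :=
    mul_le_mul_of_nonneg_right hb hD0
  have h6 : D - G ≤ ((k : ℝ) - 1) * (s + t) * D := by nlinarith
  have h7 : ((k : ℝ) - 1) * (s + t) * D ≤ ((k : ℝ) - 1) * (s + t) * (k * t * (volume K).toReal) :=
    mul_le_mul_of_nonneg_left h4 (mul_nonneg (by linarith) (by linarith))
  have h8 : ((k : ℝ) - 1) * (s + t) * (k * t * (volume K).toReal) ≤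
      k * (s + t) * (k * t * (volume K).toReal) := by
    apply mul_le_mul_of_nonneg_right _ (by positivity)
    apply mul_le_mul_of_nonneg_right (by linarith) (by linarith)
  calc D - G ≤ _ := h6
    _ ≤ _ := h7
    _ ≤ _ := h8
    _ = k ^ 2 * (s + t) * t * (volume K).toReal := by ring

end Pool.Agent.W356.RP
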