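import Pool.Agent.W712.RP.Stm

set_option autoImplicit false

open MeasureTheory Set Filter Topology
open scoped ENNReal

namespace Pool.Agent.W356.RP

open Pool.Agent.W712.RP

theorem summable_we : Summable (fun j : ℕ => ((j : ℝ) + 1) * Real.exp (-(j : ℝ) / 8)) := by
  have h1 : Summable (fun j : ℕ => ((j : ℝ) ^ 1) * (Real.exp (-(1 / 8))) ^ j) := by
    apply summable_pow_mul_geometric_of_norm_lt_one
    rw [Real.norm_eq_abs, abs_of_pos (Real.exp_pos _)]
    rw [Real.exp_lt_one_iff]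
    norm_num
  have h2 : Summable (fun j : ℕ => (Real.exp (-(1 / 8))) ^ j) := by
    apply summable_geometric_of_lt_one (Real.exp_pos _).le
    rw [Real.exp_lt_one_iff]
    norm_num
  refine (h1.add h2).congr ?_
  intro j
  rw [← Real.exp_nat_mul]
  have : (j : ℝ) * (-(1 / 8)) = -(j : ℝ) / 8 := by ring
  rw [this]
  ring

theorem we : S_WG → S_WE := by
  intro hWG m hm a ha C hC
  obtain ⟨_, _, hgr⟩ := hWG m hm a ha
  refine ⟨C * ∑' j : ℕ, ((j : ℝ) + 1) * Real.exp (-(j : ℝ) / 8), ?_⟩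
  intro Ω _ P _ u hu hu0 hP n hn
  have hn0 : (0 : ℝ) < n := by exact_mod_cast hn
  -- pointwise
  have hpt : ∀ ω, ENNReal.ofReal (Real.exp (-(n : ℝ) * u ω / 8)) ≤
      ∑' j : ℕ, Set.indicator {ω | u ω ≤ ((j : ℝ) + 1) * (1 / n)}
        (fun _ => ENNReal.ofReal (Real.exp (-(j : ℝ) / 8))) ω := by
    intro ω
    have hj : (⌊(n : ℝ) * u ω⌋₊ : ℝ) ≤ (n : ℝ) * u ω :=
      Nat.floor_le (mul_nonneg hn0.le (hu0 ω))
    have hj2 : (n : ℝ) * u ω < (⌊(n : ℝ) * u ω⌋₊ : ℝ) + 1 := Nat.lt_floor_add_one _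
    refine le_trans ?_ (ENNReal.le_tsum ⌊(n : ℝ) * u ω⌋₊)
    rw [Set.indicator_of_mem]
    · apply ENNReal.ofReal_le_ofReal
      apply Real.exp_le_exp.mpr
      linarith
    · show u ω ≤ ((⌊(n : ℝ) * u ω⌋₊ : ℝ) + 1) * (1 / n)
      rw [mul_one_div, le_div_iff₀ hn0]
      linarith
  have hW : ∀ j : ℕ, P {ω | u ω ≤ ((j : ℝ) + 1) * (1 / n)} ≤
      ENNReal.ofReal C * (ENNReal.ofReal ((j : ℝ) + 1) * Wf a (1 / n)) := by
    intro j
    have hj0 : (0 : ℝ) ≤ j := Nat.cast_nonneg j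
    refine (hP _ (by positivity)).trans ?_
    gcongr
    exact hgr _ _ (by linarith) (by positivity)
  calc ∫⁻ ω, ENNReal.ofReal (Real.exp (-(n : ℝ) * u ω / 8)) ∂P
      ≤ ∫⁻ ω, ∑' j : ℕ, Set.indicator {ω | u ω ≤ ((j : ℝ) + 1) * (1 / n)}
        (fun _ => ENNReal.ofReal (Real.exp (-(j : ℝ) / 8))) ω ∂P := lintegral_mono hpt
    _ = ∑' j : ℕ, ∫⁻ ω, Set.indicator {ω | u ω ≤ ((j : ℝ) + 1) * (1 / n)}
        (fun _ => ENNReal.ofReal (Real.exp (-(j : ℝ) / 8))) ω ∂P := by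
        apply lintegral_tsum
        intro j
        exact (measurable_const.indicator (hu measurableSet_Iic)).aemeasurable
    _ = ∑' j : ℕ, ENNReal.ofReal (Real.exp (-(j : ℝ) / 8)) *
          P {ω | u ω ≤ ((j : ℝ) + 1) * (1 / n)} := by
        congr 1
        ext j
        exact lintegral_indicator_const (hu measurableSet_Iic) _
    _ ≤ ∑' j : ℕ, ENNReal.ofReal (((j : ℝ) + 1) * Real.exp (-(j : ℝ) / 8)) *
          (ENNReal.ofReal C * Wf a (1 / n)) := by
        apply ENNReal.tsum_le_tsum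
        intro j
        have hj0 : (0 : ℝ) ≤ j := Nat.cast_nonneg j
        refine (mul_le_mul_right (hW j) _).trans (le_of_eq ?_)
        rw [ENNReal.ofReal_mul (by linarith : (0 : ℝ) ≤ (j : ℝ) + 1)]
        ring
    _ = ENNReal.ofReal (C * ∑' j : ℕ, ((j : ℝ) + 1) * Real.exp (-(j : ℝ) / 8)) *
          Wf a (1 / n) := by
        rw [ENNReal.tsum_mul_right, ← ENNReal.ofReal_tsum_of_nonneg
          (fun j => mul_nonneg (by positivity) (Real.exp_pos _).le) summable_we,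
          ENNReal.ofReal_mul hC]
        ring

end Pool.Agent.W356.RP
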